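import Pool.Agent.Q121.PM.Lim

set_option autoImplicit false
set_option linter.unusedSectionVars false

/-! If all modules in `lim 𝒜` are Mittag-Leffler, so are the modules satisfying the factorisation criterion. -/

namespace Pool.Agent.Q121.PM

universe u

section

variable {R : Type u} [Ring R]

/-- a stage of the chain -/
structure St (𝒜 : ModuleCat.{u} R → Prop) (M : Type u) [AddCommGroup M] [Module R M] {n : ℕ} (a : Fin n → M) where
  /-- the module -/
  X : ModuleCat.{u} R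
  hX : 𝒜 X
  /-- the tuple -/
  c : Fin n → X
  /-- the map to `M` -/
  g : X →ₗ[R] M
  hg : ∀ i, g (c i) = a i

variable {𝒜 : ModuleCat.{u} R → Prop} {M : Type u} [AddCommGroup M] [Module R M] {n : ℕ} {a : Fin n → M}

theorem St.step (hfp : ∀ X, 𝒜 X → Module.FinitePresentation R X) (hM : Crit 𝒜 M)
    (ha : ∀ φ : PPFormula R n, Sat φ a → ∃ ψ : PPFormula R n, Sat ψ a ∧ ¬ Implies φ ψ) (s : St 𝒜 M a) :
    ∃ (s' : St 𝒜 M a) (t : s.X →ₗ[R] s'.X) (ψ : PPFormula R n), (∀ i, t (s.c i) = s'.c i) ∧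
      Sat ψ s'.c ∧ ∀ φ, Sat φ s.c → ¬ Implies φ ψ := by
  have hfpX := hfp s.X s.hX
  obtain ⟨φ, h1, h2⟩ := exists_free (R := R) s.X s.c
  have h3 : Sat φ a := by
    have := h1.map s.g
    simpa only [s.hg] using this
  obtain ⟨ψ, h4, h5⟩ := ha φ h3
  obtain ⟨y, hy⟩ := h4
  let rel : Fin ψ.k → s.X × (Fin ψ.m → R) := fun i => (∑ j, ψ.A i j • s.c j, fun j => ψ.B i j)
  let W : Submodule R (s.X × (Fin ψ.m → R)) := Submodule.span R (Set.range rel)
  have hP : Module.FinitePresentation R ((s.X × (Fin ψ.m → R)) ⧸ W) :=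
    Module.finitePresentation_of_surjective W.mkQ W.mkQ_surjective (by
      rw [Submodule.ker_mkQ]
      exact Submodule.fg_span (Set.finite_range rel))
  let G : s.X × (Fin ψ.m → R) →ₗ[R] M := LinearMap.coprod s.g (Fintype.linearCombination R y)
  have hG : W ≤ LinearMap.ker G := by
    rw [Submodule.span_le]
    rintro _ ⟨i, rfl⟩
    have := hy i
    show G (rel i) = 0
    simp only [G, rel, LinearMap.coprod_apply, map_sum, map_smul, s.hg, Fintype.linearCombination_apply]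
    exact this
  obtain ⟨X', p, q, hX', hpq⟩ := hM _ hP (W.liftQ G hG)
  have hq : ∀ z, q (p (W.mkQ z)) = G z := by
    intro z
    have := LinearMap.congr_fun hpq (W.mkQ z)
    rw [LinearMap.comp_apply, Submodule.mkQ_apply, Submodule.liftQ_apply] at this
    exact this
  refine ⟨⟨X', hX', fun i => p (W.mkQ (s.c i, 0)), q, fun i => ?_⟩,
    p ∘ₗ W.mkQ ∘ₗ LinearMap.inl R s.X (Fin ψ.m → R), ψ, fun i => rfl, ?_, ?_⟩
  · rw [hq]
    simp only [G, LinearMap.coprod_apply, map_zero, add_zero]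
    exact s.hg i
  · refine ⟨fun j => p (W.mkQ (0, Pi.single j 1)), fun i => ?_⟩
    have h6 : rel i ∈ W := Submodule.subset_span ⟨i, rfl⟩
    have h7 : W.mkQ (rel i) = 0 := by
      rw [Submodule.mkQ_apply, Submodule.Quotient.mk_eq_zero]
      exact h6
    have h8 : rel i = ∑ j, ψ.A i j • ((s.c j, 0) : s.X × (Fin ψ.m → R)) +
        ∑ j, ψ.B i j • ((0, Pi.single j 1) : s.X × (Fin ψ.m → R)) := by
      apply Prod.ext
      · simp [rel, Prod.fst_sum]
      · simp only [rel, Prod.snd_add, Prod.snd_sum, Prod.smul_snd, smul_zero, Finset.sum_const_zero, zero_add]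
        exact pi_eq_sum_univ' _
    have h9 := congrArg p h7
    rw [h8] at h9
    simpa only [map_add, map_sum, map_smul, map_zero] using h9
  · intro φ' h6 h7
    apply h5
    intro N _ _ b hb
    obtain ⟨g, hg⟩ := h2 N b hb
    apply h7
    have := h6.map g
    simpa only [hg] using this

theorem chain_false (X : ℕ → ModuleCat.{u} R) (hX : ∀ k, 𝒜 (X k)) (T : ∀ k, X k →ₗ[R] X (k + 1))
    (c : ∀ k, Fin n → X k) (hT : ∀ k i, T k (c k i) = c (k + 1) i) (ψ : ℕ → PPFormula R n)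
    (hψ : ∀ k, Sat (ψ k) (c (k + 1))) (hψ' : ∀ k φ, Sat φ (c k) → ¬ Implies φ (ψ k))
    (hlim : ∀ L : ModuleCat.{u} R, IsLim 𝒜 L → MittagLeffler R L) : False := by
  obtain ⟨tr, tr_self, tr_succ⟩ : ∃ tr : ∀ i j, i ≤ j → X i →ₗ[R] X j, (∀ i, tr i i le_rfl = LinearMap.id) ∧
      ∀ i j (h : i ≤ j), tr i (j + 1) (Nat.le_succ_of_le h) = T j ∘ₗ tr i j h :=
    ⟨fun i j h => Nat.leRec (motive := fun j _ => X i →ₗ[R] X j) LinearMap.id (fun k _ f => T k ∘ₗ f) h,
      fun i => Nat.leRec_self _ _, fun i j h => Nat.leRec_succ _ _ _⟩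
  have tr_tr : ∀ i j k (h : i ≤ j) (h' : j ≤ k) x, tr j k h' (tr i j h x) = tr i k (h.trans h') x := by
    intro i j k h h' x
    induction k, h' using Nat.le_induction with
    | base => rw [tr_self]; rfl
    | succ k hk ih => rw [tr_succ j k hk, tr_succ i k (h.trans hk), LinearMap.comp_apply, ih, LinearMap.comp_apply]
  have tr_c : ∀ i j (h : i ≤ j) l, tr i j h (c i l) = c j l := by
    intro i j h l
    induction j, h using Nat.le_induction with
    | base => rw [tr_self]; rfl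
    | succ k hk ih => rw [tr_succ i k hk, LinearMap.comp_apply, ih, hT]
  -- the directed system
  let G : ULift.{u} ℕ → Type u := fun i => X i.down
  let f : ∀ i j : ULift.{u} ℕ, i ≤ j → G i →ₗ[R] G j := fun i j h => tr i.down j.down h
  have hdir : IsDirectedOrder (ULift.{u} ℕ) :=
    ⟨fun a b => ⟨⟨max a.down b.down⟩, le_max_left a.down b.down, le_max_right a.down b.down⟩⟩
  have hd : DirectedSystem G (fun i j h => f i j h) := by
    refine ⟨fun i x => ?_, fun k j i hij hjk x => ?_⟩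
    · show tr i.down i.down le_rfl x = x
      rw [tr_self]
      rfl
    · exact tr_tr _ _ _ _ _ x
  have hL := hlim (ModuleCat.of R (Module.DirectLimit G f))
    ⟨ULift.{u} ℕ, inferInstance, inferInstance, inferInstance, inferInstance, fun i => X i.down, f, hd,
      fun i => hX i.down, ⟨LinearEquiv.refl R _⟩⟩
  let c₀ : Fin n → G ⟨0⟩ := c 0
  obtain ⟨φ, h1, h2⟩ := hL n (fun l => Module.DirectLimit.of R (ULift.{u} ℕ) G f ⟨0⟩ (c₀ l))
  obtain ⟨j, hj, h3⟩ := sat_lim' (G := G) (f := f) φ (⟨0⟩ : ULift.{u} ℕ) c₀ h1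
  have h4 : Sat φ (c j.down) := by
    have h3' : c j.down = fun l => f ⟨0⟩ j hj (c₀ l) := by
      funext l
      exact (tr_c 0 j.down hj l).symm
    rw [h3']
    exact h3
  have h5 : Sat (ψ j.down) (c (j.down + 1)) := hψ j.down
  let c₁ : Fin n → G ⟨j.down + 1⟩ := c (j.down + 1)
  have h5' : Sat (ψ j.down) c₁ := h5
  have h6 := h5'.map (Module.DirectLimit.of R (ULift.{u} ℕ) G f ⟨j.down + 1⟩)
  have h7 : ∀ l, Module.DirectLimit.of R (ULift.{u} ℕ) G f ⟨j.down + 1⟩ (c₁ l) =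
      Module.DirectLimit.of R (ULift.{u} ℕ) G f ⟨0⟩ (c₀ l) := by
    intro l
    have h8 : c₁ l = f ⟨0⟩ ⟨j.down + 1⟩ (Nat.zero_le _) (c₀ l) := (tr_c 0 (j.down + 1) (Nat.zero_le _) l).symm
    rw [h8]
    exact Module.DirectLimit.of_f
  simp only [h7] at h6
  exact hψ' j.down φ h4 (h2 _ h6)

theorem Crit.ml (hfp : ∀ X, 𝒜 X → Module.FinitePresentation R X)
    (hlim : ∀ L : ModuleCat.{u} R, IsLim 𝒜 L → MittagLeffler R L) (hM : Crit 𝒜 M) : MittagLeffler R M := by
  classical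
  intro n a
  by_contra hcon
  have ha : ∀ φ : PPFormula R n, Sat φ a → ∃ ψ : PPFormula R n, Sat ψ a ∧ ¬ Implies φ ψ := by
    intro φ h1
    by_contra h2
    push Not at h2
    exact hcon ⟨φ, h1, h2⟩
  -- the first stage
  obtain ⟨X₀, p₀, q₀, hX₀, hpq₀⟩ := hM (Fin n → R) inferInstance (Fintype.linearCombination R a)
  have hs₀ : ∀ i, q₀ (p₀ (Pi.single i 1)) = a i := fun i => by
    have := LinearMap.congr_fun hpq₀ (Pi.single i 1)
    rw [LinearMap.comp_apply] at this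
    rw [this, Fintype.linearCombination_apply]
    simp [Pi.single_apply]
  choose nx t ψ ht hψ hψ' using fun s : St 𝒜 M a => St.step hfp hM ha s
  obtain ⟨F, hF⟩ : ∃ F : ℕ → St 𝒜 M a, ∀ k, F (k + 1) = nx (F k) :=
    ⟨fun k => Nat.rec ⟨X₀, hX₀, fun i => p₀ (Pi.single i 1), q₀, hs₀⟩ (fun _ s => nx s) k, fun k => rfl⟩
  have key : ∀ k, ∃ (T : (F k).X →ₗ[R] (F (k + 1)).X) (ψ : PPFormula R n),
      (∀ i, T ((F k).c i) = (F (k + 1)).c i) ∧ Sat ψ (F (k + 1)).c ∧ ∀ φ, Sat φ (F k).c → ¬ Implies φ ψ := by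
    intro k
    rw [hF]
    exact ⟨t (F k), ψ (F k), ht (F k), hψ (F k), hψ' (F k)⟩
  choose T ψ' h1 h2 h3 using key
  exact chain_false (fun k => (F k).X) (fun k => (F k).hX) T (fun k => (F k).c) h1 ψ' h2 h3 hlim

end

end Pool.Agent.Q121.PM
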