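import Pool.Agent.Q121.PM.Form

set_option autoImplicit false
set_option linter.unusedSectionVars false

/-! Countable pure closures in Mittag-Leffler modules, and splitting. -/

namespace Pool.Agent.Q121.PM

universe u

section

variable {R : Type u} [Ring R] {M : Type u} [AddCommGroup M] [Module R M] {N : Type u} [AddCommGroup N] [Module R N]

/-- countably generated submodules -/
def CountablyGenerated (K : Submodule R M) : Prop := ∃ S : Set M, S.Countable ∧ Submodule.span R S = K

theorem exists_pure (hM : MittagLeffler R M) (X : Set M) (hX : X.Countable) :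
    ∃ K : Submodule R M, X ⊆ K ∧ Pure K ∧ CountablyGenerated K := by
  choose φ hφ hφ' using hM
  choose y hy using hφ
  -- closure under the witnesses
  let step : Set M → Set M := fun S => S ∪ ⋃ n : ℕ, ⋃ a : Fin n → S, Set.range (y n (fun i => (a i : M)))
  have hstep : ∀ S : Set M, S.Countable → (step S).Countable := by
    intro S hS
    have : Countable S := hS.to_subtype
    refine hS.union ?_
    refine Set.countable_iUnion fun n => Set.countable_iUnion fun a => Set.countable_range _
  let T : ℕ → Set M := fun k => Nat.rec X (fun _ S => step S) k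
  have hT0 : T 0 = X := rfl
  have hTs : ∀ k, T (k + 1) = step (T k) := fun k => rfl
  have hTc : ∀ k, (T k).Countable := by
    intro k
    induction k with
    | zero => exact hX
    | succ k ih => exact hstep _ ih
  have hmono : Monotone T := monotone_nat_of_le_succ fun k => by
    rw [hTs]
    exact Set.subset_union_left
  let S : Set M := ⋃ k, T k
  have hSc : S.Countable := Set.countable_iUnion hTc
  have hcl : ∀ (n : ℕ) (a : Fin n → M), (∀ i, a i ∈ S) → ∀ j, y n a j ∈ S := by
    intro n a ha j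
    choose k hk using fun i => Set.mem_iUnion.1 (ha i)
    obtain ⟨K, hK⟩ : ∃ K, ∀ i, k i ≤ K := ⟨Finset.univ.sup k, fun i => Finset.le_sup (Finset.mem_univ i)⟩
    have h1 : ∀ i, a i ∈ T K := fun i => hmono (hK i) (hk i)
    refine Set.mem_iUnion.2 ⟨K + 1, ?_⟩
    rw [hTs]
    right
    refine Set.mem_iUnion.2 ⟨n, Set.mem_iUnion.2 ⟨fun i => ⟨a i, h1 i⟩, ⟨j, rfl⟩⟩⟩
  refine ⟨Submodule.span R S, fun x hx => Submodule.subset_span (Set.mem_iUnion.2 ⟨0, hx⟩), ?_, S, hSc, rfl⟩
  intro n ψ b hb
  classical
  -- a finite set of generators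
  have h1 : ∀ i, ∃ t : Finset M, (t : Set M) ⊆ S ∧ (b i : M) ∈ Submodule.span R (t : Set M) :=
    fun i => Submodule.mem_span_finite_of_mem_span (b i).2
  choose t ht ht' using h1
  let t' : Finset M := Finset.univ.biUnion t
  have ht1 : (t' : Set M) ⊆ S := by
    intro x hx
    rw [Finset.mem_coe, Finset.mem_biUnion] at hx
    obtain ⟨i, -, hi⟩ := hx
    exact ht i hi
  let a : Fin t'.card → M := fun j => (t'.equivFin.symm j : M)
  have ha : ∀ j, a j ∈ S := fun j => ht1 (t'.equivFin.symm j).2
  have hr : Set.range a = (t' : Set M) := by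
    ext x
    constructor
    · rintro ⟨j, rfl⟩
      exact (t'.equivFin.symm j).2
    · intro hx
      exact ⟨t'.equivFin ⟨x, hx⟩, by simp [a]⟩
  have h2 : ∀ i, ∃ c : Fin t'.card → R, ∑ j, c j • a j = (b i : M) := by
    intro i
    rw [← Submodule.mem_span_range_iff_exists_fun, hr]
    exact Submodule.span_mono (Finset.coe_subset.2 (Finset.subset_biUnion_of_mem t (Finset.mem_univ i))) (ht' i)
  choose r hr' using h2
  have h3 : Sat (sb ψ r) a := by
    rw [sat_sb]
    simp only [hr']
    exact hb
  have h4 := hφ' t'.card a (sb ψ r) h3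
  have h5 : Sat (φ t'.card a) (fun j => (⟨a j, Submodule.subset_span (ha j)⟩ : Submodule.span R S)) := by
    refine ⟨fun j => ⟨y t'.card a j, Submodule.subset_span (hcl _ a ha j)⟩, fun i => ?_⟩
    apply Subtype.ext
    have := hy t'.card a i
    simpa only [Submodule.coe_add, Submodule.coe_sum, Submodule.coe_smul, Submodule.coe_zero] using this
  have h6 := h4 _ _ h5
  rw [sat_sb] at h6
  have h7 : (fun l => ∑ j, r l j • (⟨a j, Submodule.subset_span (ha j)⟩ : Submodule.span R S)) = b := by
    funext l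
    apply Subtype.ext
    rw [Submodule.coe_sum]
    exact hr' l
  rw [h7] at h6
  exact h6

/-- Surjections with the lifting property for formulas onto countably generated Mittag-Leffler modules split. -/
theorem exists_section (g : M →ₗ[R] N) (hg : ∀ (θ : PPFormula R 1) (e : Fin 1 → N), Sat θ e →
    ∃ e' : Fin 1 → M, Sat θ e' ∧ ∀ i, g (e' i) = e i) (hN : MittagLeffler R N)
    (s : ℕ → N) (hs : Submodule.span R (Set.range s) = ⊤) : ∃ σ : N →ₗ[R] M, ∀ x, g (σ x) = x := by
  choose φ hφ hφ' using fun n => hN n (fun i : Fin n => s i)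
  -- one step
  have hstep : ∀ (n : ℕ) (l : ℕ → M), (Sat (φ n) (fun i : Fin n => l i) ∧ ∀ i < n, g (l i) = s i) →
      ∃ l' : ℕ → M, (Sat (φ (n + 1)) (fun i : Fin (n + 1) => l' i) ∧ ∀ i < n + 1, g (l' i) = s i) ∧
        ∀ i < n, l' i = l i := by
    rintro n l ⟨h1, h2⟩
    have h3 : Sat (ex (φ (n + 1))) (fun i : Fin n => s i) := by
      rw [sat_ex]
      refine ⟨s n, ?_⟩
      have : (Fin.snoc (fun i : Fin n => s i) (s n) : Fin (n + 1) → N) = fun i : Fin (n + 1) => s i := by
        funext i
        refine Fin.lastCases ?_ (fun j => ?_) i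
        · rw [Fin.snoc_last, Fin.val_last]
        · rw [Fin.snoc_castSucc, Fin.val_castSucc]
      rw [this]
      exact hφ (n + 1)
    have h4 := hφ' n _ h3 M _ h1
    rw [sat_ex] at h4
    obtain ⟨z, hz⟩ := h4
    have h5 := (hφ (n + 1)).sub (hz.map g)
    have h6 : (fun i : Fin (n + 1) => s i - g ((Fin.snoc (fun i : Fin n => l i) z : Fin (n + 1) → M) i)) =
        (Fin.snoc (fun _ => 0) (s n - g z) : Fin (n + 1) → N) := by
      funext i
      refine Fin.lastCases ?_ (fun j => ?_) i
      · rw [Fin.snoc_last, Fin.snoc_last, Fin.val_last]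
      · rw [Fin.snoc_castSucc, Fin.snoc_castSucc, h2 j j.2, Fin.val_castSucc, sub_self]
    rw [h6] at h5
    obtain ⟨e, he, he'⟩ := hg (zr (φ (n + 1))) (fun _ => s n - g z) ((sat_zr _ _).2 h5)
    rw [sat_zr] at he
    have h7 := hz.add he
    obtain ⟨l', hl1, hl2⟩ : ∃ l' : ℕ → M, l' n = z + e 0 ∧ ∀ i, i ≠ n → l' i = l i :=
      ⟨fun i => if i = n then z + e 0 else l i, if_pos rfl, fun i hi => if_neg hi⟩
    have h8 : (fun i : Fin (n + 1) => l' i) = fun i =>
        (Fin.snoc (fun i : Fin n => l i) z : Fin (n + 1) → M) i + (Fin.snoc (fun _ => 0) (e 0) : Fin (n + 1) → M) i := by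
      funext i
      refine Fin.lastCases ?_ (fun j => ?_) i
      · rw [Fin.snoc_last, Fin.snoc_last, Fin.val_last, hl1]
      · rw [Fin.snoc_castSucc, Fin.snoc_castSucc, Fin.val_castSucc, hl2 j j.2.ne, add_zero]
    refine ⟨l', ⟨?_, ?_⟩, fun i hi => hl2 i hi.ne⟩
    · rw [h8]
      exact h7
    · intro i hi
      by_cases h : i = n
      · subst h
        rw [hl1, map_add, he' 0]
        abel
      · rw [hl2 i h]
        exact h2 i (by omega)
  -- the sequence
  have h0 : Sat (φ 0) (fun i : Fin 0 => (0 : ℕ → M) i) ∧ ∀ i < 0, g ((0 : ℕ → M) i) = s i := by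
    refine ⟨?_, fun i hi => absurd hi (Nat.not_lt_zero i)⟩
    have h1 := (hφ 0).map (0 : N →ₗ[R] M)
    exact h1
  let P : ℕ → (ℕ → M) → Prop := fun n l => Sat (φ n) (fun i : Fin n => l i) ∧ ∀ i < n, g (l i) = s i
  let F : ∀ n, {l : ℕ → M // P n l} := fun n => Nat.rec ⟨0, h0⟩
    (fun n l => ⟨(hstep n l.1 l.2).choose, (hstep n l.1 l.2).choose_spec.1⟩) n
  have hF : ∀ n, ∀ i < n, (F (n + 1)).1 i = (F n).1 i := fun n => (hstep n (F n).1 (F n).2).choose_spec.2
  have hF' : ∀ i n, i < n → (F n).1 i = (F (i + 1)).1 i := by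
    intro i n hi
    induction n, hi using Nat.le_induction with
    | base => rfl
    | succ n hn ih => rw [hF n i hn, ih]
  let l : ℕ → M := fun i => (F (i + 1)).1 i
  have hl : ∀ n, Sat (φ n) (fun i : Fin n => l i) := by
    intro n
    have := (F n).2.1
    have h1 : (fun i : Fin n => l i) = fun i : Fin n => (F n).1 i := by
      funext i
      exact (hF' i n i.2).symm
    rw [h1]
    exact this
  have hgl : ∀ i, g (l i) = s i := fun i => (F (i + 1)).2.2 i (Nat.lt_succ_self i)
  -- the linear map
  let p : (ℕ →₀ R) →ₗ[R] N := Finsupp.linearCombination R s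
  let q : (ℕ →₀ R) →ₗ[R] M := Finsupp.linearCombination R l
  have hp : Function.Surjective p := by
    rw [← LinearMap.range_eq_top, Finsupp.range_linearCombination, hs]
  have hker : LinearMap.ker p ≤ LinearMap.ker q := by
    intro c hc
    rw [LinearMap.mem_ker] at hc ⊢
    obtain ⟨n, hn⟩ : ∃ n : ℕ, ∀ i ∈ c.support, i < n :=
      ⟨c.support.sup id + 1, fun i hi => Nat.lt_succ_of_le (Finset.le_sup (f := id) hi)⟩
    have key : ∀ {M' : Type u} [AddCommGroup M'] [Module R M'] (w : ℕ → M'),
        Finsupp.linearCombination R w c = ∑ i : Fin n, c i • w i := by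
      intro M' _ _ w
      rw [Finsupp.linearCombination_apply, Finsupp.sum, Fin.sum_univ_eq_sum_range (fun i => c i • w i) n]
      refine Finset.sum_subset (fun i hi => Finset.mem_range.2 (hn i hi)) fun i _ hi => ?_
      rw [Finsupp.notMem_support_iff.1 hi, zero_smul]
    have h1 : Sat (rl (fun i : Fin n => c i)) (fun i : Fin n => s i) := by
      rw [sat_rl, ← key s]
      exact hc
    have h2 := hφ' n _ h1 M _ (hl n)
    rw [sat_rl, ← key l] at h2
    exact h2
  refine ⟨(LinearMap.ker p).liftQ q hker ∘ₗ (p.quotKerEquivOfSurjective hp).symm.toLinearMap, fun x => ?_⟩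
  obtain ⟨c, rfl⟩ := hp x
  have h1 : (p.quotKerEquivOfSurjective hp).symm (p c) = (LinearMap.ker p).mkQ c := by
    rw [LinearEquiv.symm_apply_eq]
    rfl
  rw [LinearMap.comp_apply, LinearEquiv.coe_coe, h1, Submodule.mkQ_apply, Submodule.liftQ_apply]
  have h2 : g ∘ₗ q = p := by
    apply Finsupp.lhom_ext
    intro i r
    rw [LinearMap.comp_apply, Finsupp.linearCombination_single, map_smul, hgl,
      Finsupp.linearCombination_single]
  exact LinearMap.congr_fun h2 c

end

end Pool.Agent.Q121.PM
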