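import Mathlib

set_option autoImplicit false
set_option linter.unusedSectionVars false

/-! Positive primitive formulas, pure submodules, Mittag-Leffler modules. -/

namespace Pool.Agent.Q121.PM

universe u

/-- A positive primitive formula in the free variables `x_0, …, x_(n-1)` over `R`: it says that there are
`y_0, …, y_(m-1)` with `∑_j A i j x_j + ∑_j B i j y_j = 0` for all `i < k`. -/
structure PPFormula (R : Type u) (n : ℕ) where
  /-- the number of bound variables -/
  m : ℕ
  /-- the number of equations -/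
  k : ℕ
  /-- the coefficients of the free variables -/
  A : Fin k → Fin n → R
  /-- the coefficients of the bound variables -/
  B : Fin k → Fin m → R

section

variable {R : Type u} [Ring R]

/-- The tuple `a` of elements of `M` satisfies the formula `φ` in `M`. -/
def Sat {n : ℕ} (φ : PPFormula R n) {M : Type u} [AddCommGroup M] [Module R M] (a : Fin n → M) : Prop :=
  ∃ y : Fin φ.m → M, ∀ i, ∑ j, φ.A i j • a j + ∑ j, φ.B i j • y j = 0

/-- In every module, the formula `φ` implies the formula `ψ`. -/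
def Implies {n : ℕ} (φ ψ : PPFormula R n) : Prop :=
  ∀ (N : Type u) [AddCommGroup N] [Module R N] (b : Fin n → N), Sat φ b → Sat ψ b

/-- `M` is a Mittag-Leffler module: the positive primitive type of every finite tuple of elements of `M`
is finitely generated. -/
def MittagLeffler (R : Type u) [Ring R] (M : Type u) [AddCommGroup M] [Module R M] : Prop :=
  ∀ (n : ℕ) (a : Fin n → M), ∃ φ : PPFormula R n, Sat φ a ∧ ∀ ψ : PPFormula R n, Sat ψ a → Implies φ ψ

/-- formulas with arbitrary finite index sets -/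
noncomputable def mk' {n : ℕ} (m k : Type) [Fintype m] [Fintype k] (A : k → Fin n → R) (B : k → m → R) :
    PPFormula R n where
  m := Fintype.card m
  k := Fintype.card k
  A := fun i j => A ((Fintype.equivFin k).symm i) j
  B := fun i j => B ((Fintype.equivFin k).symm i) ((Fintype.equivFin m).symm j)

variable {M : Type u} [AddCommGroup M] [Module R M] {N : Type u} [AddCommGroup N] [Module R N]

theorem sat_mk' {n : ℕ} {m k : Type} [Fintype m] [Fintype k] (A : k → Fin n → R) (B : k → m → R)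
    (a : Fin n → M) : Sat (mk' m k A B) a ↔ ∃ y : m → M, ∀ i, ∑ j, A i j • a j + ∑ j, B i j • y j = 0 := by
  constructor
  · rintro ⟨y, hy⟩
    refine ⟨fun j => y (Fintype.equivFin m j), fun i => ?_⟩
    have h := hy (Fintype.equivFin k i)
    simp only [mk', Equiv.symm_apply_apply] at h
    have h2 := Equiv.sum_comp (Fintype.equivFin m)
      (fun x : Fin (Fintype.card m) => B i ((Fintype.equivFin m).symm x) • y x)
    simp only [Equiv.symm_apply_apply] at h2
    exact (congrArg (fun t => ∑ j, A i j • a j + t) h2).trans h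
  · rintro ⟨y, hy⟩
    refine ⟨fun j => y ((Fintype.equivFin m).symm j), fun i => ?_⟩
    have h := hy ((Fintype.equivFin k).symm i)
    rw [← Equiv.sum_comp (Fintype.equivFin m).symm] at h
    exact h

theorem Sat.map {n : ℕ} {φ : PPFormula R n} {a : Fin n → M} (h : Sat φ a) (f : M →ₗ[R] N) :
    Sat φ (fun i => f (a i)) := by
  obtain ⟨y, hy⟩ := h
  refine ⟨fun j => f (y j), fun i => ?_⟩
  have := congrArg f (hy i)
  simpa only [map_add, map_sum, map_smul, map_zero] using this

theorem Sat.add {n : ℕ} {φ : PPFormula R n} {a b : Fin n → M} (h : Sat φ a) (h' : Sat φ b) :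
    Sat φ (fun i => a i + b i) := by
  obtain ⟨y, hy⟩ := h
  obtain ⟨z, hz⟩ := h'
  refine ⟨fun j => y j + z j, fun i => ?_⟩
  simp only [smul_add, Finset.sum_add_distrib]
  rw [add_add_add_comm, hy, hz, add_zero]

theorem Sat.sub {n : ℕ} {φ : PPFormula R n} {a b : Fin n → M} (h : Sat φ a) (h' : Sat φ b) :
    Sat φ (fun i => a i - b i) := by
  obtain ⟨y, hy⟩ := h
  obtain ⟨z, hz⟩ := h'
  refine ⟨fun j => y j - z j, fun i => ?_⟩
  simp only [smul_sub, Finset.sum_sub_distrib]
  rw [sub_add_sub_comm, hy, hz, sub_zero]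

/-- `∃ z, φ (x, z)` -/
noncomputable def ex {n : ℕ} (φ : PPFormula R (n + 1)) : PPFormula R n :=
  mk' (Unit ⊕ Fin φ.m) (Fin φ.k) (fun i j => φ.A i j.castSucc)
    (fun i => Sum.elim (fun _ => φ.A i (Fin.last n)) (fun j => φ.B i j))

theorem sat_ex {n : ℕ} (φ : PPFormula R (n + 1)) (b : Fin n → M) :
    Sat (ex φ) b ↔ ∃ z, Sat φ (Fin.snoc b z : Fin (n + 1) → M) := by
  unfold ex
  rw [sat_mk']
  constructor
  · rintro ⟨y, hy⟩
    refine ⟨y (Sum.inl ()), fun j => y (Sum.inr j), fun i => ?_⟩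
    rw [Fin.sum_univ_castSucc]
    simp only [Fin.snoc_castSucc, Fin.snoc_last]
    have h := hy i
    rw [Fintype.sum_sum_type] at h
    simp only [Sum.elim_inl, Sum.elim_inr, Finset.univ_unique, Finset.sum_singleton] at h
    rw [add_assoc]
    exact h
  · rintro ⟨z, y, hy⟩
    refine ⟨Sum.elim (fun _ => z) y, fun i => ?_⟩
    have h := hy i
    rw [Fin.sum_univ_castSucc] at h
    simp only [Fin.snoc_castSucc, Fin.snoc_last] at h
    rw [Fintype.sum_sum_type]
    simp only [Sum.elim_inl, Sum.elim_inr, Finset.univ_unique, Finset.sum_singleton]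
    rw [add_assoc] at h
    exact h

/-- `φ (0, z)` -/
noncomputable def zr {n : ℕ} (φ : PPFormula R (n + 1)) : PPFormula R 1 :=
  mk' (Fin φ.m) (Fin φ.k) (fun i _ => φ.A i (Fin.last n)) φ.B

theorem sat_zr {n : ℕ} (φ : PPFormula R (n + 1)) (b : Fin 1 → M) :
    Sat (zr φ) b ↔ Sat φ (Fin.snoc (fun _ => 0) (b 0) : Fin (n + 1) → M) := by
  unfold zr
  rw [sat_mk']
  unfold Sat
  refine exists_congr fun y => forall_congr' fun i => ?_
  rw [Fin.sum_univ_castSucc (n := n)]
  simp only [Fin.snoc_castSucc, Fin.snoc_last, smul_zero, Finset.sum_const_zero, zero_add,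
    Finset.univ_unique, Finset.sum_singleton, Fin.default_eq_zero]

/-- `φ (r x)` -/
noncomputable def sb {n p : ℕ} (φ : PPFormula R n) (r : Fin n → Fin p → R) : PPFormula R p :=
  mk' (Fin φ.m) (Fin φ.k) (fun i j => ∑ l, φ.A i l * r l j) φ.B

theorem sat_sb {n p : ℕ} (φ : PPFormula R n) (r : Fin n → Fin p → R) (a : Fin p → M) :
    Sat (sb φ r) a ↔ Sat φ (fun l => ∑ j, r l j • a j) := by
  unfold sb
  rw [sat_mk']
  unfold Sat
  refine exists_congr fun y => forall_congr' fun i => ?_
  have : ∑ j, (∑ l, φ.A i l * r l j) • a j = ∑ l, φ.A i l • ∑ j, r l j • a j := by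
    simp only [Finset.sum_smul, Finset.smul_sum, mul_smul]
    rw [Finset.sum_comm]
  rw [this]

/-- a linear relation -/
noncomputable def rl {n : ℕ} (r : Fin n → R) : PPFormula R n :=
  mk' Empty Unit (fun _ j => r j) (fun _ => Empty.elim)

theorem sat_rl {n : ℕ} (r : Fin n → R) (a : Fin n → M) : Sat (rl r) a ↔ ∑ j, r j • a j = 0 := by
  unfold rl
  rw [sat_mk']
  constructor
  · rintro ⟨y, hy⟩
    simpa using hy ()
  · intro h
    exact ⟨Empty.elim, fun _ => by simpa using h⟩

/-- `∃ x y, A x + B y = c` -/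
noncomputable def im {n : ℕ} (φ : PPFormula R n) : PPFormula R φ.k :=
  mk' (Fin n ⊕ Fin φ.m) (Fin φ.k) (fun i j => if i = j then -1 else 0)
    (fun i => Sum.elim (φ.A i) (φ.B i))

theorem sat_im {n : ℕ} (φ : PPFormula R n) (c : Fin φ.k → M) :
    Sat (im φ) c ↔ ∃ (x : Fin n → M) (y : Fin φ.m → M), ∀ i,
      ∑ j, φ.A i j • x j + ∑ j, φ.B i j • y j = c i := by
  unfold im
  rw [sat_mk']
  constructor
  · rintro ⟨y, hy⟩
    refine ⟨fun j => y (Sum.inl j), fun j => y (Sum.inr j), fun i => ?_⟩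
    have h := hy i
    rw [Fintype.sum_sum_type] at h
    simp only [Sum.elim_inl, Sum.elim_inr, ite_smul, neg_smul, one_smul, zero_smul, Finset.sum_ite_eq,
      Finset.mem_univ, if_true] at h
    rw [neg_add_eq_zero] at h
    exact h.symm
  · rintro ⟨x, y, h⟩
    refine ⟨Sum.elim x y, fun i => ?_⟩
    rw [Fintype.sum_sum_type]
    simp only [Sum.elim_inl, Sum.elim_inr, ite_smul, neg_smul, one_smul, zero_smul, Finset.sum_ite_eq,
      Finset.mem_univ, if_true]
    rw [h i, neg_add_cancel]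

/-- pure submodules -/
def Pure (K : Submodule R M) : Prop :=
  ∀ (n : ℕ) (φ : PPFormula R n) (a : Fin n → K), Sat φ (fun i => (a i : M)) → Sat φ a

theorem Pure.lift {K : Submodule R M} (hK : Pure K) {n : ℕ} (φ : PPFormula R n) (e : Fin n → M ⧸ K)
    (h : Sat φ e) : ∃ e' : Fin n → M, Sat φ e' ∧ ∀ i, K.mkQ (e' i) = e i := by
  obtain ⟨y, hy⟩ := h
  choose e₀ he₀ using fun i => K.mkQ_surjective (e i)
  choose y₀ hy₀ using fun i => K.mkQ_surjective (y i)
  have h1 : ∀ i, ∑ j, φ.A i j • e₀ j + ∑ j, φ.B i j • y₀ j ∈ K := by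
    intro i
    rw [← Submodule.Quotient.mk_eq_zero, ← Submodule.mkQ_apply]
    simp only [map_add, map_sum, map_smul, he₀, hy₀, hy i]
  have h2 := hK φ.k (im φ) (fun i => ⟨_, h1 i⟩) ((sat_im φ _).2 ⟨e₀, y₀, fun i => rfl⟩)
  rw [sat_im] at h2
  obtain ⟨x, z, h3⟩ := h2
  refine ⟨fun j => e₀ j - x j, ⟨fun j => y₀ j - z j, fun i => ?_⟩, fun i => ?_⟩
  · have h4 := congrArg (Subtype.val) (h3 i)
    simp only [Submodule.coe_add, Submodule.coe_sum, Submodule.coe_smul] at h4
    simp only [smul_sub, Finset.sum_sub_distrib]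
    rw [sub_add_sub_comm, h4, sub_self]
  · rw [map_sub, he₀, sub_eq_self, Submodule.mkQ_apply, Submodule.Quotient.mk_eq_zero]
    exact (x i).2

theorem Pure.ml {K : Submodule R M} (hK : Pure K) (h : MittagLeffler R M) : MittagLeffler R K := by
  intro n a
  obtain ⟨φ, h1, h2⟩ := h n (fun i => (a i : M))
  exact ⟨φ, hK n φ a h1, fun ψ hψ => h2 ψ (hψ.map K.subtype)⟩

theorem ml_of_equiv (e : M ≃ₗ[R] N) (h : MittagLeffler R M) : MittagLeffler R N := by
  intro n a
  obtain ⟨φ, h1, h2⟩ := h n (fun i => e.symm (a i))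
  refine ⟨φ, ?_, fun ψ hψ => h2 ψ (hψ.map (e.symm : N →ₗ[R] M))⟩
  have := h1.map (e : M →ₗ[R] N)
  simpa using this

/-- purity of preimages -/
theorem Pure.comap {K : Submodule R M} (hK : Pure K) {P : Submodule R (M ⧸ K)} (hP : Pure P) :
    Pure (P.comap K.mkQ) := by
  intro n φ a h
  have h1 : Sat φ (fun i => K.mkQ (a i : M)) := h.map K.mkQ
  have h2 := hP n φ (fun i => ⟨K.mkQ (a i : M), (a i).2⟩) h1
  obtain ⟨y, hy⟩ := h
  obtain ⟨z, hz⟩ := h2
  choose w hw using fun j => K.mkQ_surjective (z j : M ⧸ K)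
  have h3 : ∀ i, ∑ j, φ.A i j • (a j : M) + ∑ j, φ.B i j • w j ∈ K := by
    intro i
    rw [← Submodule.Quotient.mk_eq_zero, ← Submodule.mkQ_apply]
    simp only [map_add, map_sum, map_smul, hw]
    have := congrArg (Subtype.val) (hz i)
    simpa only [Submodule.coe_add, Submodule.coe_sum, Submodule.coe_smul, Submodule.coe_zero] using this
  have h4 : Sat (im (⟨φ.m, φ.k, fun _ => Fin.elim0, φ.B⟩ : PPFormula R 0))
      (fun i => (⟨_, h3 i⟩ : K)) := by
    apply hK
    rw [sat_im]
    refine ⟨Fin.elim0, fun j => w j - y j, fun i => ?_⟩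
    simp only [Finset.univ_eq_empty, Finset.sum_empty, zero_add, smul_sub, Finset.sum_sub_distrib]
    have hA : ∑ j, φ.A i j • (a j : M) = - ∑ j, φ.B i j • y j := eq_neg_of_add_eq_zero_left (hy i)
    rw [hA]
    abel
  rw [sat_im] at h4
  obtain ⟨v₀, v, h5⟩ := h4
  have hv : ∀ j, w j - v j ∈ P.comap K.mkQ := by
    intro j
    rw [Submodule.mem_comap, map_sub, hw, Submodule.mkQ_apply _ (v j : M),
      (Submodule.Quotient.mk_eq_zero K).2 (v j).2, sub_zero]
    exact (z j).2
  refine ⟨fun j => ⟨w j - v j, hv j⟩, fun i => ?_⟩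
  apply Subtype.ext
  have h6 := congrArg (Subtype.val) (h5 i)
  simp only [Finset.univ_eq_empty, Finset.sum_empty, zero_add, Submodule.coe_sum, Submodule.coe_smul] at h6
  simp only [Submodule.coe_add, Submodule.coe_sum, Submodule.coe_smul, Submodule.coe_zero, smul_sub,
    Finset.sum_sub_distrib]
  rw [h6]
  abel_nf

end

end Pool.Agent.Q121.PM
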