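import Pool.Agent.Q121.PM.Zorn

set_option autoImplicit false
set_option linter.unusedSectionVars false

/-! Direct limits of finitely presented modules. -/

namespace Pool.Agent.Q121.PM

universe u

section

variable {R : Type u} [Ring R]

/-- free realisations -/
theorem exists_free (F : Type u) [AddCommGroup F] [Module R F] [Module.FinitePresentation R F] {n : ℕ}
    (a : Fin n → F) : ∃ φ : PPFormula R n, Sat φ a ∧ ∀ (N : Type u) [AddCommGroup N] [Module R N]
      (b : Fin n → N), Sat φ b → ∃ g : F →ₗ[R] N, ∀ i, g (a i) = b i := by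
  classical
  obtain ⟨p, m, f, g, hf, hfg⟩ := Module.FinitePresentation.exists_fin' R F
  choose r hr using fun i => hf (a i)
  have hfe : ∀ v : Fin p → R, f v = ∑ j, v j • f (Pi.single j 1) := by
    intro v
    conv_lhs => rw [pi_eq_sum_univ' v]
    rw [map_sum]
    refine Finset.sum_congr rfl fun j _ => ?_
    rw [map_smul]
  refine ⟨mk' (Fin p) (Fin n ⊕ Fin m) (Sum.elim (fun i j => if i = j then 1 else 0) (fun _ _ => 0))
    (Sum.elim (fun i j => - r i j) (fun l j => g (Pi.single l 1) j)), ?_, ?_⟩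
  · rw [sat_mk']
    refine ⟨fun j => f (Pi.single j 1), fun i => ?_⟩
    rcases i with i | l
    · simp only [Sum.elim_inl, ite_smul, one_smul, zero_smul, Finset.sum_ite_eq, Finset.mem_univ, if_true,
        neg_smul, Finset.sum_neg_distrib]
      rw [← hfe, hr, add_neg_cancel]
    · simp only [Sum.elim_inr, zero_smul, Finset.sum_const_zero, zero_add]
      rw [← hfe]
      exact (hfg (g (Pi.single l 1))).2 ⟨_, rfl⟩
  · intro N _ _ b hb
    rw [sat_mk'] at hb
    obtain ⟨y, hy⟩ := hb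
    let q : (Fin p → R) →ₗ[R] N := Fintype.linearCombination R y
    have hq : ∀ v, q v = ∑ j, v j • y j := fun v => Fintype.linearCombination_apply R y v
    have h1 : ∀ i, q (r i) = b i := by
      intro i
      have := hy (Sum.inl i)
      simp only [Sum.elim_inl, ite_smul, one_smul, zero_smul, Finset.sum_ite_eq, Finset.mem_univ, if_true,
        neg_smul, Finset.sum_neg_distrib] at this
      rw [hq]
      exact (add_neg_eq_zero.1 this).symm
    have h2 : ∀ l, q (g (Pi.single l 1)) = 0 := by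
      intro l
      have := hy (Sum.inr l)
      simp only [Sum.elim_inr, zero_smul, Finset.sum_const_zero, zero_add] at this
      rw [hq]
      exact this
    have h3 : LinearMap.ker f ≤ LinearMap.ker q := by
      intro v hv
      obtain ⟨w, rfl⟩ := (hfg v).1 hv
      have h4 : q ∘ₗ g = 0 := by
        apply LinearMap.pi_ext'
        intro l
        ext
        simpa using h2 l
      exact LinearMap.congr_fun h4 w
    refine ⟨(LinearMap.ker f).liftQ q h3 ∘ₗ (f.quotKerEquivOfSurjective hf).symm.toLinearMap, fun i => ?_⟩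
    have h4 : (f.quotKerEquivOfSurjective hf).symm (a i) = (LinearMap.ker f).mkQ (r i) := by
      rw [LinearEquiv.symm_apply_eq, ← hr i]
      rfl
    rw [LinearMap.comp_apply, LinearEquiv.coe_coe, h4, Submodule.mkQ_apply, Submodule.liftQ_apply, h1]

/-- generators -/
theorem exists_gen (F : Type u) [AddCommGroup F] [Module R F] [Module.Finite R F] :
    ∃ (n : ℕ) (e : Fin n → F), ∀ (N : Type u) [AddCommGroup N] [Module R N] (g h : F →ₗ[R] N),
      (∀ i, g (e i) = h (e i)) → g = h := by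
  obtain ⟨n, e, he⟩ := Module.Finite.exists_fin (R := R) (M := F)
  refine ⟨n, e, fun N _ _ g h hgh => LinearMap.ext_on_range he hgh⟩

/-- `M` lies in `lim 𝒜`. -/
def IsLim (𝒜 : ModuleCat.{u} R → Prop) (M : ModuleCat.{u} R) : Prop :=
  ∃ (ι : Type u) (_ : Preorder ι) (_ : IsDirectedOrder ι) (_ : Nonempty ι) (_ : DecidableEq ι)
    (G : ι → ModuleCat.{u} R) (f : ∀ i j, i ≤ j → G i →ₗ[R] G j),
    DirectedSystem (fun i => (G i : Type u)) (fun i j h => f i j h) ∧ (∀ i, 𝒜 (G i)) ∧
    Nonempty (Module.DirectLimit (fun i => (G i : Type u)) f ≃ₗ[R] M)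

/-- homomorphisms from finitely presented modules factor through `𝒜` -/
def Crit (𝒜 : ModuleCat.{u} R → Prop) (M : Type u) [AddCommGroup M] [Module R M] : Prop :=
  ∀ (F : Type u) [AddCommGroup F] [Module R F], Module.FinitePresentation R F → ∀ h : F →ₗ[R] M,
    ∃ (X : ModuleCat.{u} R) (p : F →ₗ[R] X) (q : X →ₗ[R] M), 𝒜 X ∧ q ∘ₗ p = h

section lim

variable {ι : Type u} [Preorder ι] [IsDirectedOrder ι] [Nonempty ι] [DecidableEq ι]
  {G : ι → Type u} [∀ i, AddCommGroup (G i)] [∀ i, Module R (G i)] {f : ∀ i j, i ≤ j → G i →ₗ[R] G j}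
  [DirectedSystem G (fun i j h => f i j h)]

theorem sat_lim {n : ℕ} (φ : PPFormula R n) (a : Fin n → Module.DirectLimit G f) (h : Sat φ a) :
    ∃ (i : ι) (b : Fin n → G i), Sat φ b ∧ ∀ l, Module.DirectLimit.of R ι G f i (b l) = a l := by
  obtain ⟨y, hy⟩ := h
  choose ia xa hxa using fun l => Module.DirectLimit.exists_of (a l)
  choose iy xy hxy using fun l => Module.DirectLimit.exists_of (y l)
  obtain ⟨i₁, hi₁⟩ := Finite.exists_le ia
  obtain ⟨i₂, hi₂⟩ := Finite.exists_le iy
  obtain ⟨i, h1, h2⟩ := exists_ge_ge i₁ i₂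
  let b : Fin n → G i := fun l => f (ia l) i ((hi₁ l).trans h1) (xa l)
  let z : Fin φ.m → G i := fun l => f (iy l) i ((hi₂ l).trans h2) (xy l)
  have hb : ∀ l, Module.DirectLimit.of R ι G f i (b l) = a l := fun l => by
    rw [← hxa]
    exact Module.DirectLimit.of_f
  have hz : ∀ l, Module.DirectLimit.of R ι G f i (z l) = y l := fun l => by
    rw [← hxy]
    exact Module.DirectLimit.of_f
  have h3 : ∀ t, Module.DirectLimit.of R ι G f i (∑ j, φ.A t j • b j + ∑ j, φ.B t j • z j) = 0 := by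
    intro t
    simp only [map_add, map_sum, map_smul, hb, hz]
    exact hy t
  choose jt hjt hjt' using fun t => Module.DirectLimit.of.zero_exact (h3 t)
  obtain ⟨j₁, hj₁⟩ := Finite.exists_le jt
  obtain ⟨j, h4, h5⟩ := exists_ge_ge i j₁
  refine ⟨j, fun l => f i j h4 (b l), ⟨fun l => f i j h4 (z l), fun t => ?_⟩, fun l => ?_⟩
  · have h6 : f (jt t) j ((hj₁ t).trans h5) (f i (jt t) (hjt t) (∑ j, φ.A t j • b j + ∑ j, φ.B t j • z j)) = 0 := by
      rw [hjt', map_zero]
    have h7 : f (jt t) j ((hj₁ t).trans h5) (f i (jt t) (hjt t) (∑ j, φ.A t j • b j + ∑ j, φ.B t j • z j)) =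
        f i j h4 (∑ j, φ.A t j • b j + ∑ j, φ.B t j • z j) :=
      DirectedSystem.map_map (f := fun i j h => f i j h) (hjt t) ((hj₁ t).trans h5) _
    rw [h7] at h6
    simpa only [map_add, map_sum, map_smul] using h6
  · rw [← hb l]
    exact Module.DirectLimit.of_f

theorem sat_lim' {n : ℕ} (φ : PPFormula R n) (i : ι) (b : Fin n → G i)
    (h : Sat φ (fun l => Module.DirectLimit.of R ι G f i (b l))) :
    ∃ (j : ι) (hij : i ≤ j), Sat φ (fun l => f i j hij (b l)) := by
  obtain ⟨i', b', h1, h2⟩ := sat_lim φ _ h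
  obtain ⟨j, h3, h4⟩ := exists_ge_ge i i'
  have h5 : ∀ l, Module.DirectLimit.of R ι G f j (f i j h3 (b l) - f i' j h4 (b' l)) = 0 := by
    intro l
    rw [map_sub, Module.DirectLimit.of_f, Module.DirectLimit.of_f, h2, sub_self]
  choose jt hjt hjt' using fun t => Module.DirectLimit.of.zero_exact (h5 t)
  obtain ⟨j₁, hj₁⟩ := Finite.exists_le jt
  obtain ⟨k, h6, h7⟩ := exists_ge_ge j j₁
  refine ⟨k, h3.trans h6, ?_⟩
  have h8 : ∀ l, f i k (h3.trans h6) (b l) = f i' k (h4.trans h6) (b' l) := by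
    intro l
    have h9 : f (jt l) k ((hj₁ l).trans h7) (f j (jt l) (hjt l) (f i j h3 (b l) - f i' j h4 (b' l))) = 0 := by
      rw [hjt', map_zero]
    have m1 : ∀ {i j k : ι} (hij : i ≤ j) (hjk : j ≤ k) (x : G i), f j k hjk (f i j hij x) = f i k (hij.trans hjk) x :=
      fun hij hjk x => DirectedSystem.map_map (f := fun i j h => f i j h) hij hjk x
    rw [m1, map_sub, m1, m1, sub_eq_zero] at h9
    exact h9
  have h9 := h1.map (f i' k (h4.trans h6))
  simp only [← h8] at h9
  exact h9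

end lim

variable {𝒜 : ModuleCat.{u} R → Prop}

theorem IsLim.crit {M : ModuleCat.{u} R} (h : IsLim 𝒜 M) : Crit 𝒜 M := by
  obtain ⟨ι, _, _, _, _, G, f, hd, hA, ⟨E⟩⟩ := h
  intro F _ _ hF h
  obtain ⟨n, e, he⟩ := exists_gen (R := R) F
  obtain ⟨φ, h1, h2⟩ := exists_free (R := R) F e
  have h3 := (h1.map h).map E.symm.toLinearMap
  obtain ⟨i, b, h4, h5⟩ := sat_lim φ _ h3
  obtain ⟨p, hp⟩ := h2 _ b h4
  refine ⟨G i, p, E.toLinearMap ∘ₗ Module.DirectLimit.of R ι (fun i => (G i : Type u)) f i, hA i, ?_⟩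
  apply he
  intro l
  rw [LinearMap.comp_apply, LinearMap.comp_apply, hp, h5, LinearEquiv.coe_coe, LinearEquiv.coe_coe,
    LinearEquiv.apply_symm_apply]

theorem Crit.quot {M : Type u} [AddCommGroup M] [Module R M] (h : Crit 𝒜 M) (K : Submodule R M) (hK : Pure K) :
    Crit 𝒜 (M ⧸ K) := by
  intro F _ _ hF g
  obtain ⟨n, e, he⟩ := exists_gen (R := R) F
  obtain ⟨φ, h1, h2⟩ := exists_free (R := R) F e
  obtain ⟨e', h3, h4⟩ := hK.lift φ _ (h1.map g)
  obtain ⟨g', hg'⟩ := h2 _ e' h3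
  obtain ⟨X, p, q, hX, hpq⟩ := h F hF g'
  refine ⟨X, p, K.mkQ ∘ₗ q, hX, ?_⟩
  rw [LinearMap.comp_assoc, hpq]
  apply he
  intro i
  rw [LinearMap.comp_apply, hg', h4]

end

end Pool.Agent.Q121.PM
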