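import Pool.Agent.Q121.PM.Clos

set_option autoImplicit false
set_option linter.unusedSectionVars false

/-! If all quotients of `M` by pure submodules are Mittag-Leffler, then `M` is a direct sum of countably
generated submodules. -/

namespace Pool.Agent.Q121.PM

universe u

section

variable {R : Type u} [Ring R] {M : Type u} [AddCommGroup M] [Module R M]

theorem pure_sSup_of_directed (c : Set (Submodule R M)) (hne : c.Nonempty) (hc : DirectedOn (· ≤ ·) c)
    (h : ∀ K ∈ c, Pure K) : Pure (sSup c) := by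
  intro n φ a ha
  have h1 : ∀ i, ∃ K ∈ c, (a i : M) ∈ K := fun i => (Submodule.mem_sSup_of_directed hne hc).1 (a i).2
  -- a common member
  have h2 : ∀ s : Finset (Fin n), ∃ K ∈ c, ∀ i ∈ s, (a i : M) ∈ K := by
    classical
    intro s
    induction s using Finset.induction_on with
    | empty =>
      obtain ⟨K, hK⟩ := hne
      exact ⟨K, hK, fun i hi => absurd hi (Finset.notMem_empty i)⟩
    | insert i s _ ih =>
      obtain ⟨K, hK, hK'⟩ := ih
      obtain ⟨L, hL, hL'⟩ := h1 i
      obtain ⟨P, hP, h3, h4⟩ := hc K hK L hL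
      refine ⟨P, hP, fun j hj => ?_⟩
      rcases Finset.mem_insert.1 hj with rfl | hj
      · exact h4 hL'
      · exact h3 (hK' j hj)
  obtain ⟨K, hK, hK'⟩ := h2 Finset.univ
  have h3 := h K hK n φ (fun i => ⟨a i, hK' i (Finset.mem_univ i)⟩) ha
  exact h3.map (Submodule.inclusion (le_sSup hK))

theorem pure_bot : Pure (⊥ : Submodule R M) := by
  intro n φ a _
  have : a = fun _ => 0 := by
    funext i
    exact Subsingleton.elim _ _
  rw [this]
  exact ⟨fun _ => 0, fun i => by simp⟩

theorem CountablyGenerated.seq {P : Submodule R M} (h : CountablyGenerated P) : ∃ s : ℕ → P, Submodule.span R (Set.range s) = ⊤ := by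
  obtain ⟨S, hS, rfl⟩ := h
  obtain ⟨s, hs⟩ := (hS.insert (0 : M)).exists_eq_range ⟨0, Set.mem_insert _ _⟩
  have h1 : Submodule.span R (Set.range s) = Submodule.span R S := by
    rw [← hs, Submodule.span_insert_zero]
  have h2 : ∀ i, s i ∈ Submodule.span R S := fun i => by
    rw [← h1]
    exact Submodule.subset_span ⟨i, rfl⟩
  refine ⟨fun i => ⟨s i, h2 i⟩, ?_⟩
  apply Submodule.map_injective_of_injective (Submodule.span R S).injective_subtype
  rw [Submodule.map_span, ← Set.range_comp, Submodule.map_top, Submodule.range_subtype]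
  exact h1

theorem exists_complement (K : Submodule R M) (hK : Pure K) (hML : MittagLeffler R (M ⧸ K)) (x : M) (hx : x ∉ K) :
    ∃ N : Submodule R M, CountablyGenerated N ∧ Disjoint N K ∧ N ≠ ⊥ ∧ Pure (K ⊔ N) := by
  obtain ⟨P, hxP, hP, hcg⟩ := exists_pure hML {K.mkQ x} (Set.countable_singleton _)
  have hxP' : K.mkQ x ∈ P := hxP (Set.mem_singleton _)
  have hPML : MittagLeffler R P := hP.ml hML
  have hcomap := hK.comap hP
  let g : (P.comap K.mkQ) →ₗ[R] P := K.mkQ.restrict (p := P.comap K.mkQ) (q := P) (fun y hy => hy)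
  obtain ⟨s, hs⟩ := hcg.seq
  obtain ⟨σ, hσ⟩ := exists_section g (by
    intro θ e he
    have h1 := he.map P.subtype
    obtain ⟨e', h2, h3⟩ := hK.lift θ _ h1
    have h4 : ∀ i, e' i ∈ P.comap K.mkQ := fun i => by
      rw [Submodule.mem_comap, h3]
      exact (e i).2
    refine ⟨fun i => ⟨e' i, h4 i⟩, hcomap _ θ _ h2, fun i => ?_⟩
    apply Subtype.ext
    exact h3 i) hPML s hs
  have hσ' : ∀ p : P, K.mkQ (σ p : M) = p := fun p => congrArg Subtype.val (hσ p)
  let τ : P →ₗ[R] M := (P.comap K.mkQ).subtype ∘ₗ σ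
  have hτ : ∀ p : P, K.mkQ (τ p) = p := hσ'
  refine ⟨LinearMap.range τ, ?_, ?_, ?_, ?_⟩
  · refine ⟨Set.range (fun i => τ (s i)), Set.countable_range _, ?_⟩
    have : Set.range (fun i => τ (s i)) = τ '' Set.range s := by
      rw [← Set.range_comp]
      rfl
    rw [this, ← Submodule.map_span, hs, Submodule.map_top]
  · rw [Submodule.disjoint_def]
    rintro _ ⟨p, rfl⟩ hp
    have h1 : K.mkQ (τ p) = 0 := by
      rw [Submodule.mkQ_apply, Submodule.Quotient.mk_eq_zero]
      exact hp
    rw [hτ] at h1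
    have h2 : p = 0 := Subtype.ext h1
    rw [h2, map_zero]
  · intro h
    have h1 : τ ⟨K.mkQ x, hxP'⟩ = 0 := by
      have : τ ⟨K.mkQ x, hxP'⟩ ∈ LinearMap.range τ := ⟨_, rfl⟩
      rw [h] at this
      exact (Submodule.mem_bot R).1 this
    have h2 := hτ ⟨K.mkQ x, hxP'⟩
    rw [h1, map_zero] at h2
    have h3 : K.mkQ x = 0 := h2.symm
    rw [Submodule.mkQ_apply, Submodule.Quotient.mk_eq_zero] at h3
    exact hx h3
  · have : K ⊔ LinearMap.range τ = P.comap K.mkQ := by
      apply le_antisymm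
      · refine sup_le ?_ ?_
        · intro y hy
          rw [Submodule.mem_comap, Submodule.mkQ_apply, (Submodule.Quotient.mk_eq_zero K).2 hy]
          exact P.zero_mem
        · rintro _ ⟨p, rfl⟩
          rw [Submodule.mem_comap, hτ]
          exact p.2
      · intro y hy
        have h1 : K.mkQ (y - τ ⟨K.mkQ y, hy⟩) = 0 := by
          rw [map_sub, hτ, sub_self]
        rw [Submodule.mkQ_apply, Submodule.Quotient.mk_eq_zero] at h1
        have h2 := Submodule.add_mem_sup h1 (LinearMap.mem_range_self τ ⟨K.mkQ y, hy⟩)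
        rwa [sub_add_cancel] at h2
    rw [this]
    exact hcomap

theorem decomp (hM : ∀ K : Submodule R M, Pure K → MittagLeffler R (M ⧸ K)) :
    ∃ 𝒮 : Set (Submodule R M), sSupIndep 𝒮 ∧ (∀ N ∈ 𝒮, CountablyGenerated N) ∧ sSup 𝒮 = ⊤ := by
  have zorn := zorn_subset_nonempty
    {𝒮 : Set (Submodule R M) | sSupIndep 𝒮 ∧ (∀ N ∈ 𝒮, CountablyGenerated N) ∧ Pure (sSup 𝒮)} (by
      intro c hc1 hc2 hc3
      refine ⟨⋃₀ c, ⟨iSupIndep_sUnion_of_directed hc2.directedOn fun s hs => (hc1 hs).1, ?_, ?_⟩,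
        fun s hs => Set.subset_sUnion_of_mem hs⟩
      · rintro N ⟨s, hs, hN⟩
        exact (hc1 hs).2.1 N hN
      · rw [sSup_sUnion, ← sSup_image]
        refine pure_sSup_of_directed _ (hc3.image _) ?_ ?_
        · rw [directedOn_image]
          exact hc2.directedOn.mono @fun s t => sSup_le_sSup
        · rintro _ ⟨s, hs, rfl⟩
          exact (hc1 hs).2.2) ∅
    ⟨sSupIndep_empty, fun N hN => absurd hN (Set.notMem_empty N), by rw [sSup_empty]; exact pure_bot⟩
  obtain ⟨𝒮, -, ⟨h1, h2, h3⟩, hmax⟩ := zorn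
  refine ⟨𝒮, h1, h2, ?_⟩
  by_contra hne
  obtain ⟨x, hx⟩ : ∃ x, x ∉ sSup 𝒮 := by
    by_contra hx
    push Not at hx
    exact hne (eq_top_iff.2 fun x _ => hx x)
  obtain ⟨N, hN1, hN2, hN3, hN4⟩ := exists_complement _ h3 (hM _ h3) x hx
  have hNS : N ∉ 𝒮 := by
    intro h
    have := le_sSup h
    exact hN3 (disjoint_self.1 (hN2.mono_right this))
  have h4 : insert N 𝒮 ∈ {𝒮 : Set (Submodule R M) | sSupIndep 𝒮 ∧ (∀ N ∈ 𝒮, CountablyGenerated N) ∧ Pure (sSup 𝒮)} := by
    refine ⟨?_, ?_, ?_⟩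
    · intro L hL
      rcases Set.mem_insert_iff.1 hL with rfl | hL
      · rw [Set.insert_sdiff_of_mem _ (Set.mem_singleton _)]
        exact hN2.mono_right (sSup_le_sSup Set.sdiff_subset)
      · have hLN : L ≠ N := fun h => hNS (h ▸ hL)
        have h5 : insert N 𝒮 \ {L} = 𝒮 \ {L} ∪ {N} := by
          rw [Set.insert_sdiff_of_notMem, Set.union_singleton]
          rw [Set.mem_singleton_iff]
          exact Ne.symm hLN
        rw [h5, sSup_union, sSup_singleton]
        apply (h1 hL).disjoint_sup_right_of_disjoint_sup_left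
        rw [← sSup_insert, Set.insert_sdiff_singleton, Set.insert_eq_of_mem hL]
        exact hN2.symm
    · intro L hL
      rcases Set.mem_insert_iff.1 hL with rfl | hL
      · exact hN1
      · exact h2 L hL
    · rw [sSup_insert, sup_comm]
      exact hN4
  exact hNS (hmax h4 (Set.subset_insert N 𝒮) (Set.mem_insert N 𝒮))

end

end Pool.Agent.Q121.PM
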